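import Pool.Agent.MP_4716e9_gt.CM.Chang

open Set Topology TopologicalSpace MeasureTheory Pool.Agent.MP_4716e9_gt.CM

namespace Pool.Agent.Results.MP_4716e9_gt.ChangDual

universe u

theorem result : List.TFAE
    [InDual.{u} {r : ℕ × ℕ → Bool | WellFounded fun a b => r (a, b) = true},
      ∀ (P Z : Type) [TopologicalSpace P] [PolishSpace P] [TopologicalSpace Z] [MetrizableSpace Z]
        (C : Set P) (g : P → Z), AnalyticSet Cᶜ → ContinuousOn g C → InDual.{u} (g '' C),
      ∀ θ : Type u, ∃ (L : Type u) (_ : LinearOrder L) (_ : WellFoundedLT L), ∀ F : List L → θ,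
        ∃ Θ : Set θ, Θ.Countable ∧
          ∀ (W : Type) [LinearOrder W] [WellFoundedLT W] [Countable W],
            ∃ e : W → L, StrictMono e ∧ ∀ l : List W, F (l.map e) ∈ Θ] := by
  tfae_have 1 → 3 := fun h => chang_of (critC_of _ h)
  tfae_have 3 → 2 := fun h P Z _ _ _ _ C g hC hg =>
    let _ := metrizableSpaceMetric (g '' C)
    inDual_of _ (critC_of_chang h hC hg).crit
  tfae_have 2 → 1 := fun h => by
    have : PolishSpace (ℕ × ℕ → Bool) := {}
    have := h (ℕ × ℕ → Bool) (ℕ × ℕ → Bool) _ id wf_coanalytic continuousOn_id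
    rwa [image_id] at this
  tfae_finish

end Pool.Agent.Results.MP_4716e9_gt.ChangDual
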