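import Pool.Agent.MP_4716e9_gt.CM.Crit

open Set Topology TopologicalSpace Pool.Agent.MP_4716e9_gt.CM

namespace Pool.Agent.Results.MP_4716e9_gt.CompleteDual

universe u

theorem result (X : Type u) [TopologicalSpace X] [MetrizableSpace X] :
    InDual.{u} X ↔ Crit.{u} X :=
  let _ := metrizableSpaceMetric X
  ⟨crit_of X, inDual_of X⟩

end Pool.Agent.Results.MP_4716e9_gt.CompleteDual
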