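import Pool.Agent.MP_4716e9_gt.NN.D

open TopologicalSpace Pool.Agent.MP_4716e9_gt.NN

namespace Pool.Agent.Results.MP_4716e9_gt.DoubleDual

universe u v

/-- The double dual of a family of separable metrizable spaces, one of them not discrete,
among the T1 spaces that are metrizable or separable. -/
theorem result {ι : Type v} (T : ι → Type u) [∀ i, TopologicalSpace (T i)]
    [∀ i, MetrizableSpace (T i)] [∀ i, SeparableSpace (T i)] (hT : ∃ i, ¬ DiscreteTopology (T i))
    (X : Type u) [TopologicalSpace X] [T1Space X] (hX : MetrizableSpace X ∨ SeparableSpace X) :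
    (∀ (Y : Type u) [TopologicalSpace Y] [T1Space Y], (∀ i, NormalSpace (T i × Y)) →
      NormalSpace (X × Y)) ↔ MetrizableSpace X ∧ SigmaLocallyDetermined T X :=
  main T hT X hX

end Pool.Agent.Results.MP_4716e9_gt.DoubleDual
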