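import Pool.Agent.MP_4716e9_gt.Main

namespace Pool.Agent.Results.MP_4716e9_gt.PerfectlyNormalDual

open Pool.Agent.MP_4716e9_gt

universe u

/-- The spaces whose product with every perfectly normal space is normal. -/
theorem result (X : Type u) [TopologicalSpace X] [T1Space X] :
    List.TFAE
      [∀ (Y : Type u) [TopologicalSpace Y] [T6Space Y], NormalSpace (X × Y),
       ∀ (Y : Type u) [TopologicalSpace Y] [T6Space Y], PerfectlyNormalSpace (X × Y),
       Stratifiable X ∧ PointFiniteUnions X] := by
  tfae_have 1 → 3 := fun h => by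
    have := h (Bing (Pointed X))
    have hc : Core X := core_of_bing
    exact ⟨hc.stratifiable, hc.pointFinite⟩
  tfae_have 3 → 2 := fun h Y _ _ => (core_of h.1 h.2).perfectlyNormal Y
  tfae_have 2 → 1 := fun h Y _ _ => (h Y).toNormalSpace
  tfae_finish

end Pool.Agent.Results.MP_4716e9_gt.PerfectlyNormalDual
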